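import Pool.Agent.W2helper18.RX.Stm

/-!
Project RX, piece C: the average of `gg` over the differences of the shifts.
-/

set_option autoImplicit false

namespace Pool.Agent.W2helper60.RX

open Finset Pool.Agent.H197R2.PG Pool.Agent.W2helper18.RX

theorem sh_lt_succ {x : ℕ} (hx : 1 ≤ x) : sh x < sh (x + 1) := by
  unfold sh
  have h1 : x < 2 ^ x := Nat.lt_two_pow_self
  have h2 : x + 1 < 2 ^ (x + 1) := Nat.lt_two_pow_self
  have h3 : 2 ^ (x + 1) = 2 * 2 ^ x := by ring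
  have h4 : 2 ^ 1 ≤ 2 ^ x := Nat.pow_le_pow_right (by norm_num) hx
  omega

theorem sh_lt {x y : ℕ} (hx : 1 ≤ x) (hxy : x < y) : sh x < sh y := by
  induction y, hxy using Nat.le_induction with
  | base => exact sh_lt_succ hx
  | succ y hy ih => exact ih.trans (sh_lt_succ (by omega))

theorem sh_ne {x y : ℕ} (hx : 1 ≤ x) (hy : 1 ≤ y) (hxy : x ≠ y) : sh x ≠ sh y := by
  rcases Nat.lt_or_gt_of_ne hxy with h | h
  · exact (sh_lt hx h).ne
  · exact (sh_lt hy h).ne'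

theorem sh_bd {x L : ℕ} (hx : 1 ≤ x) (hL : x ≤ L) : sh x < 2 ^ L := by
  unfold sh
  have h1 : 2 ^ x ≤ 2 ^ L := Nat.pow_le_pow_right (by norm_num) hL
  have h2 : x < 2 ^ x := Nat.lt_two_pow_self
  omega

theorem card_pf {h L : ℕ} (h0 : 0 < h) (hL : h < 2 ^ L) : #h.primeFactors ≤ L := by
  have h1 : 2 ^ #h.primeFactors ≤ ∏ p ∈ h.primeFactors, p := by
    rw [← Finset.prod_const]
    exact Finset.prod_le_prod (fun _ _ => by norm_num) fun p hp =>
      (Nat.prime_of_mem_primeFactors hp).two_le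
  have h2 : ∏ p ∈ h.primeFactors, p ≤ h := Nat.le_of_dvd h0 (Nat.prod_primeFactors_dvd h)
  have h3 : 2 ^ #h.primeFactors < 2 ^ L := (h1.trans h2).trans_lt hL
  exact ((Nat.pow_lt_pow_iff_right (by norm_num)).1 h3).le

theorem dvd_dist {p a b : ℕ} : p ∣ Nat.dist a b ↔ (p : ℤ) ∣ (a : ℤ) - b := by
  rcases le_total a b with h | h
  · rw [Nat.dist_eq_sub_of_le h, ← Int.natCast_dvd_natCast, Nat.cast_sub h, ← dvd_neg, neg_sub]
  · rw [Nat.dist_eq_sub_of_le_right h, ← Int.natCast_dvd_natCast, Nat.cast_sub h]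

theorem p_C : P_C := by
  intro hA hM hB
  obtain ⟨CA, hCA1, hCA⟩ := hA
  obtain ⟨CM, hCM1, hCM⟩ := hM
  have hsum : Summable (fun n : ℕ => 1 / (n : ℝ) ^ (3 / 2 : ℝ)) :=
    Real.summable_one_div_nat_rpow.2 (by norm_num)
  obtain ⟨S0, hS0⟩ : ∃ S0 : ℝ, S0 = ∑' n : ℕ, 1 / (n : ℝ) ^ (3 / 2 : ℝ) := ⟨_, rfl⟩
  have hS00 : 0 ≤ S0 := by
    rw [hS0]
    exact tsum_nonneg fun n => by positivity
  have hCC : 1 ≤ CA * CM := one_le_mul_of_one_le_of_one_le hCA1 hCM1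
  refine ⟨CA * CM * (1 + 4 * S0), one_le_mul_of_one_le_of_one_le hCC (by linarith), fun L => ?_⟩
  obtain ⟨P, hP⟩ : ∃ P : Finset ℕ, P = (range (L + 1)).filter (fun p => p.Prime ∧ p ^ 2 ≤ L) :=
    ⟨_, rfl⟩
  obtain ⟨hd, hhd⟩ : ∃ hd : ℕ × ℕ → ℕ, hd = fun z => Nat.dist (sh z.1) (sh z.2) := ⟨_, rfl⟩
  have hgg : ∀ z ∈ (Icc 1 L).offDiag, gg (hd z) ≤
      CA * CM * (1 + ∑ p ∈ P, if p ∣ hd z then 1 / √(p : ℝ) else 0) := by
    intro z hz
    rw [mem_offDiag, mem_Icc, mem_Icc] at hz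
    obtain ⟨⟨hz1, hz2⟩, ⟨hz3, hz4⟩, hne⟩ := hz
    have hpos : 0 < hd z := by
      rw [hhd]
      exact Nat.dist_pos_of_ne (sh_ne hz1 hz3 hne)
    have hlt : hd z < 2 ^ L := by
      rw [hhd]
      have e1 := sh_bd hz1 hz2
      have e2 := sh_bd hz3 hz4
      show (sh z.1 - sh z.2) + (sh z.2 - sh z.1) < 2 ^ L
      omega
    have hcard := card_pf hpos hlt
    unfold gg
    rw [← Finset.prod_filter_mul_prod_filter_not (hd z).primeFactors (fun p => p ^ 2 ≤ L)]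
    have h1 := hCA ((hd z).primeFactors.filter (fun p => p ^ 2 ≤ L)) fun p hp =>
      Nat.prime_of_mem_primeFactors (mem_filter.1 hp).1
    have h2 := hCM L ((hd z).primeFactors.filter (fun p => ¬ p ^ 2 ≤ L)) (fun p hp =>
      ⟨Nat.prime_of_mem_primeFactors (mem_filter.1 hp).1, not_le.1 (mem_filter.1 hp).2⟩)
      ((card_filter_le _ _).trans hcard)
    have h3 : ∑ p ∈ (hd z).primeFactors.filter (fun p => p ^ 2 ≤ L), 1 / √(p : ℝ) ≤
        ∑ p ∈ P, if p ∣ hd z then 1 / √(p : ℝ) else 0 := by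
      rw [← sum_filter]
      refine sum_le_sum_of_subset_of_nonneg ?_ fun p _ _ => by positivity
      intro p hp
      rw [mem_filter, Nat.mem_primeFactors] at hp
      obtain ⟨⟨hp1, hp2, -⟩, hp3⟩ := hp
      rw [mem_filter, hP, mem_filter, mem_range]
      have h4 : p ≤ p ^ 2 := Nat.le_self_pow (by norm_num) p
      exact ⟨⟨by omega, hp1, hp3⟩, hp2⟩
    have h4 : (0 : ℝ) ≤ ∏ p ∈ (hd z).primeFactors.filter (fun p => ¬ p ^ 2 ≤ L),
        (1 + 1 / (p : ℝ)) := prod_nonneg fun p _ => by positivity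
    have h5 : (0 : ℝ) ≤ ∑ p ∈ (hd z).primeFactors.filter (fun p => p ^ 2 ≤ L), 1 / √(p : ℝ) :=
      sum_nonneg fun p _ => by positivity
    calc _ ≤ (CA * (1 + ∑ p ∈ (hd z).primeFactors.filter (fun p => p ^ 2 ≤ L), 1 / √(p : ℝ))) *
          CM := mul_le_mul h1 h2 h4 (mul_nonneg (by linarith) (by linarith))
      _ = CA * CM * (1 + ∑ p ∈ (hd z).primeFactors.filter (fun p => p ^ 2 ≤ L),
          1 / √(p : ℝ)) := by ring
      _ ≤ _ := mul_le_mul_of_nonneg_left (by linarith) (by linarith)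
  have hcnt : ∀ p ∈ P, ∑ z ∈ (Icc 1 L).offDiag, (if p ∣ hd z then 1 / √(p : ℝ) else 0) ≤
      4 * (L : ℝ) ^ 2 * (1 / (p : ℝ) ^ (3 / 2 : ℝ)) := by
    intro p hp
    rw [hP, mem_filter] at hp
    obtain ⟨-, hp1, hp2⟩ := hp
    have hp0 : (0 : ℝ) < p := by exact_mod_cast hp1.pos
    rw [← sum_filter, sum_const, nsmul_eq_mul]
    have h1 : (#((Icc 1 L).offDiag.filter fun z => p ∣ hd z) : ℝ) ≤
        ∑ y ∈ Icc 1 L, (4 * L / p : ℝ) := by
      have h2 : #((Icc 1 L).offDiag.filter fun z => p ∣ hd z) ≤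
          ∑ y ∈ Icc 1 L, #((Icc 1 L).filter fun x : ℕ => (p : ℤ) ∣ (sh x : ℤ) - (sh y : ℤ)) := by
        rw [card_eq_sum_card_fiberwise (f := Prod.snd) (t := Icc 1 L)]
        · refine sum_le_sum fun y _ => ?_
          refine card_le_card_of_injOn Prod.fst ?_ ?_
          · intro z hz
            have hz := mem_filter.1 (mem_coe.1 hz)
            obtain ⟨hz1, hz2⟩ := hz
            rw [mem_filter, mem_offDiag] at hz1
            refine mem_coe.2 (mem_filter.2 ⟨hz1.1.1, ?_⟩)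
            have h3 := hz1.2
            rw [hhd] at h3
            rw [← hz2]
            exact dvd_dist.1 h3
          · intro z hz z' hz' hzz
            have hz := (mem_filter.1 (mem_coe.1 hz)).2
            have hz' := (mem_filter.1 (mem_coe.1 hz')).2
            exact Prod.ext hzz (hz.trans hz'.symm)
        · intro z hz
          have hz := (mem_filter.1 (mem_coe.1 hz)).1
          rw [mem_offDiag] at hz
          exact mem_coe.2 hz.2.1
      calc (#((Icc 1 L).offDiag.filter fun z => p ∣ hd z) : ℝ) ≤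
          ((∑ y ∈ Icc 1 L, #((Icc 1 L).filter fun x : ℕ =>
            (p : ℤ) ∣ (sh x : ℤ) - (sh y : ℤ)) : ℕ) : ℝ) := by exact_mod_cast h2
        _ = ∑ y ∈ Icc 1 L, ((#((Icc 1 L).filter fun x : ℕ =>
            (p : ℤ) ∣ (sh x : ℤ) - (sh y : ℤ)) : ℕ) : ℝ) := by push_cast; rfl
        _ ≤ _ := sum_le_sum fun y _ => hB p L hp1 hp2 (sh y)
    rw [sum_const, Nat.card_Icc, nsmul_eq_mul] at h1
    have h2 : ((L + 1 - 1 : ℕ) : ℝ) = L := by
      rw [Nat.add_sub_cancel]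
    rw [h2] at h1
    have h3 : (p : ℝ) ^ (3 / 2 : ℝ) = p * √(p : ℝ) := by
      rw [Real.sqrt_eq_rpow]
      nth_rewrite 2 [← Real.rpow_one (p : ℝ)]
      rw [← Real.rpow_add hp0]
      norm_num
    rw [h3]
    have h4 : 0 < √(p : ℝ) := Real.sqrt_pos.2 hp0
    calc _ ≤ (L : ℝ) * (4 * L / p) * (1 / √(p : ℝ)) :=
          mul_le_mul_of_nonneg_right h1 (by positivity)
      _ = _ := by field_simp
  have hP0 : ∑ p ∈ P, 1 / (p : ℝ) ^ (3 / 2 : ℝ) ≤ S0 := by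
    rw [hS0]
    exact hsum.sum_le_tsum P fun n _ => by positivity
  have hoff : (#(Icc 1 L).offDiag : ℝ) ≤ (L : ℝ) ^ 2 := by
    have h1 : #(Icc 1 L).offDiag ≤ L ^ 2 := by
      rw [offDiag_card, Nat.card_Icc, Nat.add_sub_cancel]
      have : L ^ 2 = L * L := by ring
      omega
    exact_mod_cast h1
  calc ∑ z ∈ (Icc 1 L).offDiag, gg (Nat.dist (sh z.1) (sh z.2))
      = ∑ z ∈ (Icc 1 L).offDiag, gg (hd z) := by rw [hhd]
    _ ≤ ∑ z ∈ (Icc 1 L).offDiag,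
        CA * CM * (1 + ∑ p ∈ P, if p ∣ hd z then 1 / √(p : ℝ) else 0) := sum_le_sum hgg
    _ = CA * CM * (#(Icc 1 L).offDiag +
        ∑ p ∈ P, ∑ z ∈ (Icc 1 L).offDiag, if p ∣ hd z then 1 / √(p : ℝ) else 0) := by
        rw [← mul_sum, sum_add_distrib, sum_comm, sum_const, nsmul_eq_mul, mul_one]
    _ ≤ CA * CM * ((L : ℝ) ^ 2 + ∑ p ∈ P, 4 * (L : ℝ) ^ 2 * (1 / (p : ℝ) ^ (3 / 2 : ℝ))) :=
        mul_le_mul_of_nonneg_left (add_le_add hoff (sum_le_sum hcnt)) (by linarith)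
    _ = CA * CM * ((L : ℝ) ^ 2 + 4 * (L : ℝ) ^ 2 * ∑ p ∈ P, 1 / (p : ℝ) ^ (3 / 2 : ℝ)) := by
        rw [mul_sum]
    _ ≤ CA * CM * ((L : ℝ) ^ 2 + 4 * (L : ℝ) ^ 2 * S0) :=
        mul_le_mul_of_nonneg_left (add_le_add le_rfl
          (mul_le_mul_of_nonneg_left hP0 (by positivity))) (by linarith)
    _ = CA * CM * (1 + 4 * S0) * (L : ℝ) ^ 2 := by ring

end Pool.Agent.W2helper60.RX
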